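import Mathlib
import Pool.Agent.Helper73.TH.Defs
import Pool.Agent.Helper73.TH.UDefs

set_option autoImplicit false

/-!
Project TH (MP_594f4b_nt, Q2), piece TH-12: combinations of two vectors.
-/

namespace Pool.Agent.Helper73.TH

open Real

/-- from exponents to the final estimate -/
private theorem P12_fin {E C δ t : ℝ} (hE : 2 * δ ≤ E) (ht : 0 ≤ t) (hC : C ≤ δ * t) :
    δ * t ≤ E * t - C := by
  nlinarith [mul_le_mul_of_nonneg_right hE ht]

/-- a logarithmic lower bound -/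
private theorem P12_log {x y : ℝ} (hx : 0 < x) (h : x ≤ y) : log x ≤ log y := log_le_log hx h

/-- case B -/
private theorem P12_B (P : Par) (s : ℝ) (hs : 1 < s) {t a b u1 u2 w1 w2 L X : ℝ}
    (ht : log 320 ≤ (P.γ - 1) * (1 - P.α) * t)
    (ha : 1 ≤ a) (hb : 1 ≤ b)
    (h1 : exp (P.α * t) ≤ u1) (h4 : u2 ≤ 20 * exp t)
    (h6 : w1 ≤ 2 * exp (P.α * (P.γ * t)))
    (h7 : exp (P.γ * t) ≤ 2 * w2)
    (hL : a ≤ 32 * exp (P.κ * (P.γ * t)) * L) (hL0 : 0 < L)
    (hX : a * u1 - b * w1 ≤ X) (hlt : b * w2 < 2 * a * u2) :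
    ((1 + s) * (P.γ - 1) + s * P.α - P.γ * P.κ) * t - ((1 + s) * log 80 + log 32 + s * log 2) ≤
      s * log X + log L ∧ 0 < X := by
  have ha0 : 0 < a := by linarith
  have hb0 : 0 < b := by linarith
  have e1 : b * exp (P.γ * t) ≤ 80 * a * exp t := by
    have k1 : b * exp (P.γ * t) ≤ b * (2 * w2) := mul_le_mul_of_nonneg_left h7 hb0.le
    have k2 : 2 * a * u2 ≤ 2 * a * (20 * exp t) := mul_le_mul_of_nonneg_left h4 (by linarith)
    nlinarith
  have hA : (P.γ - 1) * t - log 80 ≤ log a := by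
    have k1 : exp (P.γ * t) ≤ 80 * a * exp t := by
      have : 1 * exp (P.γ * t) ≤ b * exp (P.γ * t) :=
        mul_le_mul_of_nonneg_right hb (exp_pos _).le
      linarith
    have k2 := log_le_log (exp_pos _) k1
    rw [log_exp, log_mul (by positivity) (exp_pos _).ne', log_mul (by norm_num) ha0.ne',
      log_exp] at k2
    linarith
  have e2 : 320 * exp t * exp (P.α * (P.γ * t)) ≤ exp (P.γ * t) * exp (P.α * t) := by
    have k1 : (320 : ℝ) = exp (log 320) := (exp_log (by norm_num)).symm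
    rw [k1, ← exp_add, ← exp_add, ← exp_add, exp_le_exp]
    nlinarith
  have e3 : b * w1 ≤ a * exp (P.α * t) / 2 := by
    have k1 : b * w1 ≤ b * (2 * exp (P.α * (P.γ * t))) := mul_le_mul_of_nonneg_left h6 hb0.le
    have k2 : b * (2 * exp (P.α * (P.γ * t))) * exp (P.γ * t) ≤
        a * exp (P.α * t) / 2 * exp (P.γ * t) := by
      have k3 : b * exp (P.γ * t) * (2 * exp (P.α * (P.γ * t))) ≤
          80 * a * exp t * (2 * exp (P.α * (P.γ * t))) :=
        mul_le_mul_of_nonneg_right e1 (by positivity)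
      have k4 := mul_le_mul_of_nonneg_left e2 (show 0 ≤ a / 2 by linarith)
      nlinarith
    have k5 := le_of_mul_le_mul_right k2 (exp_pos _)
    linarith
  have e4 : a * exp (P.α * t) / 2 ≤ X := by
    have k1 : a * exp (P.α * t) ≤ a * u1 := mul_le_mul_of_nonneg_left h1 ha0.le
    linarith
  have hX0 : 0 < X := lt_of_lt_of_le (by positivity) e4
  refine ⟨?_, hX0⟩
  have hx : log a + P.α * t - log 2 ≤ log X := by
    have k1 := log_le_log (by positivity) e4
    rw [log_div (by positivity) (by norm_num), log_mul ha0.ne' (exp_pos _).ne', log_exp] at k1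
    exact k1
  have hl : log a ≤ log 32 + P.κ * (P.γ * t) + log L := by
    have k1 := log_le_log ha0 hL
    rw [log_mul (by positivity) hL0.ne', log_mul (by norm_num) (exp_pos _).ne', log_exp] at k1
    exact k1
  have k1 := mul_le_mul_of_nonneg_left hx (show 0 ≤ s by linarith)
  have k2 := mul_le_mul_of_nonneg_left hA (show 0 ≤ 1 + s by linarith)
  nlinarith

/-- case A: the strip -/
private theorem P12_A0 (P : Par) (s : ℝ) (hs : 1 < s) {t a b L X : ℝ}
    (ha : 1 ≤ a) (hb : 1 ≤ b)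
    (hL : a ≤ 32 * exp (P.κ * (P.γ * t)) * L) (hL0 : 0 < L)
    (hX : b * exp (P.γ * t) / 4 ≤ X)
    (ha' : exp (P.α * (P.γ * t)) ≤ a) (hb' : exp (P.α * t) ≤ b) :
    (P.α * P.γ + s * P.α + s * P.γ - P.γ * P.κ) * t - (s * log 4 + log 32) ≤
      s * log X + log L := by
  have ha0 : 0 < a := by linarith
  have hb0 : 0 < b := by linarith
  have hx : log b + P.γ * t - log 4 ≤ log X := by
    have k1 := log_le_log (by positivity) hX
    rw [log_div (by positivity) (by norm_num), log_mul hb0.ne' (exp_pos _).ne', log_exp] at k1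
    exact k1
  have hl : log a ≤ log 32 + P.κ * (P.γ * t) + log L := by
    have k1 := log_le_log ha0 hL
    rw [log_mul (by positivity) hL0.ne', log_mul (by norm_num) (exp_pos _).ne', log_exp] at k1
    exact k1
  have hA : P.α * (P.γ * t) ≤ log a := by
    have k1 := log_le_log (exp_pos _) ha'
    rwa [log_exp] at k1
  have hB : P.α * t ≤ log b := by
    have k1 := log_le_log (exp_pos _) hb'
    rwa [log_exp] at k1
  have k1 := mul_le_mul_of_nonneg_left hx (show 0 ≤ s by linarith)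
  have k2 := mul_le_mul_of_nonneg_left hB (show 0 ≤ s by linarith)
  nlinarith

/-- case A1 -/
private theorem P12_A1 (P : Par) (ρ s : ℝ) (hρ : 1 < ρ) (hs : 1 < s) {t a b L X : ℝ}
    (ha : 1 ≤ a) (hb : 1 ≤ b)
    (hL : a ≤ 32 * exp (P.κ * (P.γ * t)) * L) (hL0 : 0 < L)
    (hX : b * exp (P.γ * t) / 4 ≤ X)
    (hc : b * exp (P.γ * t) / 2 ≤ (8 * b * exp (P.α * (P.γ * t))) ^ ρ) :
    (P.γ * (s * (1 - ρ * P.α) / (ρ - 1) + s - P.κ)) * t -
      (s * (log 2 + ρ * log 8) / (ρ - 1) + s * log 4 + log 32) ≤ s * log X + log L := by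
  have ha0 : 0 < a := by linarith
  have hb0 : 0 < b := by linarith
  have hρ1 : 0 < ρ - 1 := by linarith
  have hx : log b + P.γ * t - log 4 ≤ log X := by
    have k1 := log_le_log (by positivity) hX
    rw [log_div (by positivity) (by norm_num), log_mul hb0.ne' (exp_pos _).ne', log_exp] at k1
    exact k1
  have hl : log a ≤ log 32 + P.κ * (P.γ * t) + log L := by
    have k1 := log_le_log ha0 hL
    rw [log_mul (by positivity) hL0.ne', log_mul (by norm_num) (exp_pos _).ne', log_exp] at k1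
    exact k1
  have hA : 0 ≤ log a := log_nonneg ha
  have hB : P.γ * (1 - ρ * P.α) / (ρ - 1) * t - (log 2 + ρ * log 8) / (ρ - 1) ≤ log b := by
    have k1 := log_le_log (by positivity) hc
    rw [log_div (by positivity) (by norm_num), log_mul hb0.ne' (exp_pos _).ne', log_exp,
      log_rpow (by positivity), log_mul (by positivity) (exp_pos _).ne',
      log_mul (by norm_num) hb0.ne', log_exp] at k1
    have e : P.γ * (1 - ρ * P.α) / (ρ - 1) * t - (log 2 + ρ * log 8) / (ρ - 1) =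
        (P.γ * (1 - ρ * P.α) * t - (log 2 + ρ * log 8)) / (ρ - 1) := by ring
    rw [e, div_le_iff₀ hρ1]
    nlinarith
  have k1 := mul_le_mul_of_nonneg_left hx (show 0 ≤ s by linarith)
  have k2 := mul_le_mul_of_nonneg_left hB (show 0 ≤ s by linarith)
  have e : (P.γ * (s * (1 - ρ * P.α) / (ρ - 1) + s - P.κ)) * t -
      (s * (log 2 + ρ * log 8) / (ρ - 1) + s * log 4 + log 32) =
      s * (P.γ * (1 - ρ * P.α) / (ρ - 1) * t - (log 2 + ρ * log 8) / (ρ - 1)) +
      s * (P.γ * t - log 4) - P.κ * (P.γ * t) - log 32 := by ring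
  rw [e]
  nlinarith

/-- case A2 -/
private theorem P12_A2 (P : Par) (ρ s : ℝ) (hρ : 1 < ρ) (hs : 1 < s) {t a b L X : ℝ}
    (ha : 1 ≤ a) (hb : 1 ≤ b)
    (hL : a ≤ 32 * exp (P.κ * (P.γ * t)) * L) (hL0 : 0 < L)
    (hX : b * exp (P.γ * t) / 4 ≤ X)
    (hc : b * exp (P.γ * t) / 2 ≤ (8 * a * exp (P.α * t)) ^ ρ) :
    (P.γ * (1 / ρ + s - P.κ) - P.α) * t -
      (s * log 4 + log 32 + log 2 / ρ + log 8) ≤ s * log X + log L := by
  have ha0 : 0 < a := by linarith
  have hb0 : 0 < b := by linarith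
  have hρ0 : 0 < ρ := by linarith
  have hx : log b + P.γ * t - log 4 ≤ log X := by
    have k1 := log_le_log (by positivity) hX
    rw [log_div (by positivity) (by norm_num), log_mul hb0.ne' (exp_pos _).ne', log_exp] at k1
    exact k1
  have hl : log a ≤ log 32 + P.κ * (P.γ * t) + log L := by
    have k1 := log_le_log ha0 hL
    rw [log_mul (by positivity) hL0.ne', log_mul (by norm_num) (exp_pos _).ne', log_exp] at k1
    exact k1
  have hB : 0 ≤ log b := log_nonneg hb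
  have hA : P.γ / ρ * t - log 2 / ρ - log 8 - P.α * t ≤ log a := by
    have k1 := log_le_log (by positivity) hc
    rw [log_div (by positivity) (by norm_num), log_mul hb0.ne' (exp_pos _).ne', log_exp,
      log_rpow (by positivity), log_mul (by positivity) (exp_pos _).ne',
      log_mul (by norm_num) ha0.ne', log_exp] at k1
    have k2 : (P.γ * t - log 2) / ρ ≤ log 8 + log a + P.α * t := by
      rw [div_le_iff₀ hρ0]
      nlinarith
    have e : (P.γ * t - log 2) / ρ = P.γ / ρ * t - log 2 / ρ := by ring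
    rw [e] at k2
    linarith
  have k1 := mul_le_mul_of_nonneg_left hx (show 0 ≤ s by linarith)
  have k2 := mul_nonneg (show 0 ≤ s by linarith) hB
  have e : (P.γ * (1 / ρ + s - P.κ) - P.α) * t -
      (s * log 4 + log 32 + log 2 / ρ + log 8) =
      (P.γ / ρ * t - log 2 / ρ - log 8 - P.α * t) + s * (P.γ * t - log 4) -
        P.κ * (P.γ * t) - log 32 := by ring
  rw [e]
  nlinarith

theorem case2a (P : Par) (ρ s : ℝ) (h : Ineq P ρ s) :
    ∃ δ : ℝ, 0 < δ ∧ ∃ t0 : ℝ, ∀ t : ℝ, t0 ≤ t → ∀ (a b : ℤ) (u1 u2 w1 w2 L X : ℝ),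
      a ≠ 0 → b ≠ 0 →
      Real.exp (P.α * t) ≤ u1 → u1 ≤ 2 * Real.exp (P.α * t) →
      Real.exp t ≤ 2 * u2 → u2 ≤ 20 * Real.exp t →
      Real.exp (P.α * (P.γ * t)) ≤ w1 → w1 ≤ 2 * Real.exp (P.α * (P.γ * t)) →
      Real.exp (P.γ * t) ≤ 2 * w2 → w2 ≤ 20 * Real.exp (P.γ * t) →
      |(a : ℝ)| ≤ 32 * Real.exp (P.κ * (P.γ * t)) * |L| →
      |(a : ℝ) * u1 + b * w1| ≤ X → |(a : ℝ) * u2 + b * w2| ≤ X →
      (2 * |(a : ℝ) * u1 + b * w1| ≤ 1 →
        Real.exp (P.α * (P.γ * t)) ≤ |(a : ℝ)| ∧ Real.exp (P.α * t) ≤ |(b : ℝ)|) →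
      Dom ρ (a * u1 + b * w1) (a * u2 + b * w2) →
      Real.exp (δ * t) ≤ X ^ s * |L| := by
  obtain ⟨hρ, hs, hρα, U1, U2, U3, U5, U6, U7, U8⟩ := h
  have hα0 := P.hα0
  have hα1 := P.hα1
  have hγ := P.hγ
  have hρ1 : 0 < ρ - 1 := by linarith
  have hγ0 : 0 < P.γ := by linarith
  set E2 : ℝ := (1 + s) * (P.γ - 1) + s * P.α - P.γ * P.κ with hE2
  set E5 : ℝ := P.α * P.γ + s * P.α + s * P.γ - P.γ * P.κ with hE5
  set E8 : ℝ := P.γ * (s * (1 - ρ * P.α) / (ρ - 1) + s - P.κ) with hE8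
  set E6 : ℝ := P.γ * (1 / ρ + s - P.κ) - P.α with hE6
  have p2 : 0 < E2 := by rw [hE2]; linarith
  have p5 : 0 < E5 := by rw [hE5]; linarith
  have p8 : 0 < E8 := by
    rw [hE8]
    apply mul_pos hγ0
    have k1 : P.κ - s < s * (1 - ρ * P.α) / (ρ - 1) := by
      rw [lt_div_iff₀ hρ1]
      linarith
    linarith
  have p6 : 0 < E6 := by rw [hE6]; linarith
  set δ : ℝ := min (min E2 E5) (min E8 E6) / 2 with hδ
  have hδ0 : 0 < δ := by
    rw [hδ]
    have : 0 < min (min E2 E5) (min E8 E6) := lt_min (lt_min p2 p5) (lt_min p8 p6)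
    linarith
  have q2 : 2 * δ ≤ E2 := by
    have := (min_le_left (min E2 E5) (min E8 E6)).trans (min_le_left E2 E5)
    rw [hδ]; linarith
  have q5 : 2 * δ ≤ E5 := by
    have := (min_le_left (min E2 E5) (min E8 E6)).trans (min_le_right E2 E5)
    rw [hδ]; linarith
  have q8 : 2 * δ ≤ E8 := by
    have := (min_le_right (min E2 E5) (min E8 E6)).trans (min_le_left E8 E6)
    rw [hδ]; linarith
  have q6 : 2 * δ ≤ E6 := by
    have := (min_le_right (min E2 E5) (min E8 E6)).trans (min_le_right E8 E6)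
    rw [hδ]; linarith
  clear_value δ
  set C2 : ℝ := (1 + s) * log 80 + log 32 + s * log 2 with hC2
  set C5 : ℝ := s * log 4 + log 32 with hC5
  set C8 : ℝ := s * (log 2 + ρ * log 8) / (ρ - 1) + s * log 4 + log 32 with hC8
  set C6 : ℝ := s * log 4 + log 32 + log 2 / ρ + log 8 with hC6
  have hw : 0 < (P.γ - 1) * (1 - P.α) := mul_pos (by linarith) (by linarith)
  refine ⟨δ, hδ0, max (max 0 (log 320 / ((P.γ - 1) * (1 - P.α))))
    (max (max (C2 / δ) (C5 / δ)) (max (C8 / δ) (C6 / δ))), ?_⟩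
  intro t ht a b u1 u2 w1 w2 L X ha hb h1 h2 h3 h4 h5 h6 h7 h8 hL hX1 hX2 hstrip hdom
  have ht0 : 0 ≤ t := ((le_max_left _ _).trans (le_max_left _ _)).trans ht
  have htw : log 320 ≤ (P.γ - 1) * (1 - P.α) * t := by
    have k1 : log 320 / ((P.γ - 1) * (1 - P.α)) ≤ t :=
      ((le_max_right _ _).trans (le_max_left _ _)).trans ht
    rw [div_le_iff₀ hw] at k1
    linarith
  have c2 : C2 ≤ δ * t := by
    have k1 : C2 / δ ≤ t :=
      (((le_max_left _ _).trans (le_max_left _ _)).trans (le_max_right _ _)).trans ht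
    rw [div_le_iff₀ hδ0] at k1
    linarith
  have c5 : C5 ≤ δ * t := by
    have k1 : C5 / δ ≤ t :=
      (((le_max_right _ _).trans (le_max_left _ _)).trans (le_max_right _ _)).trans ht
    rw [div_le_iff₀ hδ0] at k1
    linarith
  have c8 : C8 ≤ δ * t := by
    have k1 : C8 / δ ≤ t :=
      (((le_max_left _ _).trans (le_max_right _ _)).trans (le_max_right _ _)).trans ht
    rw [div_le_iff₀ hδ0] at k1
    linarith
  have c6 : C6 ≤ δ * t := by
    have k1 : C6 / δ ≤ t :=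
      (((le_max_right _ _).trans (le_max_right _ _)).trans (le_max_right _ _)).trans ht
    rw [div_le_iff₀ hδ0] at k1
    linarith
  have ha1 : (1 : ℝ) ≤ |(a : ℝ)| := by
    have := Int.one_le_abs ha
    exact_mod_cast this
  have hb1 : (1 : ℝ) ≤ |(b : ℝ)| := by
    have := Int.one_le_abs hb
    exact_mod_cast this
  have hL0 : 0 < |L| := by
    rcases (abs_nonneg L).lt_or_eq with hlt | heq
    · exact hlt
    · rw [← heq] at hL
      linarith
  have hu1 : 0 < u1 := lt_of_lt_of_le (exp_pos _) h1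
  have hw1 : 0 < w1 := lt_of_lt_of_le (exp_pos _) h5
  have hu2 : 0 < u2 := by linarith [exp_pos t]
  have hw2 : 0 < w2 := by linarith [exp_pos (P.γ * t)]
  have abs1 : ∀ (c : ℤ) (x : ℝ), 0 < x → |(c : ℝ) * x| = |(c : ℝ)| * x := fun c x hx => by
    rw [abs_mul, abs_of_pos hx]
  -- the conclusion from the logarithmic bound
  have fin : ∀ E C : ℝ, 2 * δ ≤ E → C ≤ δ * t → 0 < X → E * t - C ≤ s * log X + log |L| →
      exp (δ * t) ≤ X ^ s * |L| := by
    intro E C k1 k2 k3 k4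
    have k5 := P12_fin k1 ht0 k2
    have k6 : X ^ s * |L| = exp (s * log X + log |L|) := by
      rw [exp_add, exp_log hL0, rpow_def_of_pos k3, mul_comm s]
    rw [k6, exp_le_exp]
    linarith
  rcases lt_or_ge (|(b : ℝ)| * w2) (2 * |(a : ℝ)| * u2) with hB | hA
  · have hX : |(a : ℝ)| * u1 - |(b : ℝ)| * w1 ≤ X := by
      have k1 := abs_sub_abs_le_abs_add ((a : ℝ) * u1) ((b : ℝ) * w1)
      rw [abs1 a u1 hu1, abs1 b w1 hw1] at k1
      linarith
    obtain ⟨k1, k2⟩ := P12_B P s hs htw ha1 hb1 h1 h4 h6 h7 hL hL0 hX hB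
    exact fin E2 C2 q2 c2 k2 k1
  · have hX : |(b : ℝ)| * exp (P.γ * t) / 4 ≤ |(a : ℝ) * u2 + b * w2| := by
      have k1 := abs_sub_abs_le_abs_add ((b : ℝ) * w2) ((a : ℝ) * u2)
      rw [abs1 a u2 hu2, abs1 b w2 hw2, add_comm ((b : ℝ) * w2)] at k1
      have k2 := mul_le_mul_of_nonneg_left h7 (show (0 : ℝ) ≤ |(b : ℝ)| by linarith)
      nlinarith
    have hX' := hX.trans hX2
    have hX0 : 0 < X := lt_of_lt_of_le (by positivity) hX'
    by_cases hst : 2 * |(a : ℝ) * u1 + b * w1| ≤ 1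
    · obtain ⟨k1, k2⟩ := hstrip hst
      exact fin E5 C5 q5 c5 hX0 (P12_A0 P s hs ha1 hb1 hL hL0 hX' k1 k2)
    · have hcurve : 2 * |(a : ℝ) * u2 + b * w2| ≤ (2 * |(a : ℝ) * u1 + b * w1|) ^ ρ := by
        rcases hdom with k | k
        · exact k
        · exact absurd k hst
      have hy1 : |(a : ℝ) * u1 + b * w1| ≤
          2 * |(a : ℝ)| * exp (P.α * t) + 2 * |(b : ℝ)| * exp (P.α * (P.γ * t)) := by
        have k1 := abs_add_le ((a : ℝ) * u1) ((b : ℝ) * w1)
        rw [abs1 a u1 hu1, abs1 b w1 hw1] at k1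
        have k2 := mul_le_mul_of_nonneg_left h2 (abs_nonneg (a : ℝ))
        have k3 := mul_le_mul_of_nonneg_left h6 (abs_nonneg (b : ℝ))
        linarith
      have hc : ∀ M : ℝ, 2 * |(a : ℝ) * u1 + b * w1| ≤ M →
          |(b : ℝ)| * exp (P.γ * t) / 2 ≤ M ^ ρ := by
        intro M hM
        have k1 := rpow_le_rpow (by positivity) hM (show 0 ≤ ρ by linarith)
        linarith
      rcases le_total (|(a : ℝ)| * exp (P.α * t)) (|(b : ℝ)| * exp (P.α * (P.γ * t))) with hab | hab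
      · have k1 := hc (8 * |(b : ℝ)| * exp (P.α * (P.γ * t))) (by linarith)
        exact fin E8 C8 q8 c8 hX0 (P12_A1 P ρ s hρ hs ha1 hb1 hL hL0 hX' k1)
      · have k1 := hc (8 * |(a : ℝ)| * exp (P.α * t)) (by linarith)
        exact fin E6 C6 q6 c6 hX0 (P12_A2 P ρ s hρ hs ha1 hb1 hL hL0 hX' k1)

end Pool.Agent.Helper73.TH
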